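import Pool.Agent.Helper70.OB.Goals

/-!
Packet OB-CNT of helper70 (MP_91ee6f_gt): counting of zeros, conclusion.
-/

set_option autoImplicit false

namespace Pool.Agent.Helper59.OB

open Pool.Agent.Helper70.OB

theorem cnt : CNT1 → CNTS → CNTT → CNT := by
  intro h1 hs ht k V P m hC b hb hV hP F hF hF' hm
  have hk : 2 ≤ k := hC.two_le
  have hstart : ZZ (V 1) b (max (2 * F.card) 1) :=
    h1 k V P m hC b hb (hV 0 (by omega)) (hP 0 (by omega)) F hF hF'
  have hstep : ∀ i : ℕ, 1 + i < k → ZZ (V (1 + i)) b (max (2 * F.card) 1 + i) := by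
    intro i
    induction i with
    | zero => intro _; simpa using hstart
    | succ i ih =>
      intro hi
      have h := hs k V P m hC b hb (1 + i) (by omega) (hV (1 + i) (by omega))
        (hP (1 + i) (by omega)) _ (ih (by omega))
      have e1 : 1 + (i + 1) = 1 + i + 1 := by omega
      have e2 : max (2 * F.card) 1 + (i + 1) = max (2 * F.card) 1 + i + 1 := by omega
      rw [e1, e2]
      exact h
  have hlast := hstep (k - 2) (by omega)
  have e : 1 + (k - 2) = k - 1 := by omega
  rw [e] at hlast
  have hle := ht k V P m hC b hb (hV (k - 1) (by omega)) F hm _ hlast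
  have hcard : 1 ≤ F.card := by
    rcases Nat.eq_zero_or_pos F.card with h0 | h0
    · exfalso
      rw [h0] at hle
      simp at hle
    · exact h0
  refine ⟨Finset.card_pos.1 hcard, ?_⟩
  have : max (2 * F.card) 1 = 2 * F.card := max_eq_left (by omega)
  rw [this] at hle
  omega

end Pool.Agent.Helper59.OB
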