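import Pool.Agent.Helper70.OB.GoalsE
import Pool.Agent.Helper85.OB.CHNa
import Pool.Agent.Helper77.MM.UD

/-!
Packet EV-EINV of helper70 (MP_91ee6f_gt): the value of `g_k` to the right of a solid shell.
-/

set_option autoImplicit false

open MeasureTheory Set Metric Filter
open scoped ENNReal Topology
open Pool.Agent.Results.MP_91ee6f_gt
open Pool.Agent.Helper70.MM (om om_zero om_one om_rel om_pos om_hasDerivAt om_le om_measurable)

namespace Pool.Agent.Helper59.OB

open Pool.Agent.Helper70.OB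

theorem cc_succ (n j : ℕ) : cc n (j + 1) = cc n j * ((n : ℝ) - 1 - 2 * j) := by
  unfold cc
  rw [Finset.prod_range_succ]

theorem cc_pos {n k : ℕ} (hn : n = 2 * k) : ∀ j ≤ k, 0 < cc n j := by
  intro j
  induction j with
  | zero => intro _; unfold cc; simp
  | succ j ih =>
    intro hj
    rw [cc_succ]
    refine mul_pos (ih (by omega)) ?_
    rw [hn]
    have : (j : ℝ) + 1 ≤ k := by exact_mod_cast hj
    push_cast
    linarith

theorem om_lip (j : ℕ) {m : ℝ} (hm : 0 < m) : ∃ C : ℝ, 0 ≤ C ∧ ∀ s t : ℝ, m ≤ s → m ≤ t →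
    om j t ≤ om j s + C * |s - t| := by
  obtain ⟨C, hC0, hC⟩ := Pool.Agent.Helper77.MM.om_bound1 j hm
  refine ⟨C, hC0, fun s t hs ht => ?_⟩
  have h := Convex.norm_image_sub_le_of_norm_hasDerivWithin_le (f := om j)
    (f' := fun s => -(s * om (j + 1) s)) (s := Ici m) (C := C) (x := s) (y := t)
    (fun x hx => (om_hasDerivAt j (lt_of_lt_of_le hm hx)).hasDerivWithinAt)
    (fun x hx => by
      have hx0 : 0 < x := lt_of_lt_of_le hm hx
      have h1 := om_pos (j + 1) hx0
      rw [Real.norm_eq_abs, abs_neg, abs_of_pos (by positivity)]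
      exact hC x hx)
    (convex_Ici m) hs ht
  rw [Real.norm_eq_abs, Real.norm_eq_abs] at h
  have h2 := le_abs_self (om j t - om j s)
  rw [abs_sub_comm s t]
  linarith

/-- the integrand of `pe` is interval integrable -/
theorem hint (h : CHG) {n j : ℕ} (hn : 2 ≤ n) (hj : 2 * (j + 1) ≤ n) (τ : Measure (En n))
    (hτ : IsFiniteMeasure τ) (hrot : Rot τ) (e : En n) (he : ‖e‖ = 1) (r : ℝ) (hr : 0 < r) :
    IntervalIntegrable (fun u => u ^ (n - 1) *
      (gj τ e j u - ((n : ℝ) - 1 - 2 * j) * gj τ e (j + 1) u)) volume 0 r := by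
  obtain ⟨_, h2, h3, _⟩ := h n j hn hj τ hτ hrot e he
  have h4 := (h2 r hr).sub ((h3 r hr).const_mul ((n : ℝ) - 1 - 2 * j))
  refine h4.congr ?_
  intro u _
  simp only
  ring

/-- one step of the induction -/
theorem step (h : CHG) {n k j : ℕ} (hn : n = 2 * k) (hj : j < k) (τ : Measure (En n))
    (hτ : IsFiniteMeasure τ) (hrot : Rot τ) (e : En n) (he : ‖e‖ = 1) {a b : ℝ} (ha : 0 ≤ a)
    (hab : a < b) (h0 : ∀ r, a < r → r < b → VV τ e j r = 0) :
    (∀ r, a < r → r < b → PE τ e j r = 0) ∧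
    ∀ᵐ u : ℝ, a < u → u < b → VV τ e (j + 1) u = 0 := by
  have hn2 : 2 ≤ n := by omega
  have hjn : 2 * (j + 1) ≤ n := by omega
  obtain ⟨_, _, _, _, _, h6⟩ := h n j hn2 hjn τ hτ hrot e he
  have hc := cc_pos hn j (by omega)
  have hg : ∀ r, a < r → r < b → gj τ e j r = 1 / cc n j := by
    intro r h1 h2
    have h3 := h0 r h1 h2
    unfold VV at h3
    field_simp
    linarith
  have hpe : ∀ r, a < r → r < b → pe τ e j r = 0 := by
    intro r h1 h2
    have hr : 0 < r := by linarith
    have h3 : gj τ e j =ᶠ[𝓝 r] fun _ => 1 / cc n j := by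
      filter_upwards [Ioo_mem_nhds h1 h2] with x hx
      exact hg x hx.1 hx.2
    have h4 := (hasDerivAt_const r (1 / cc n j)).congr_of_eventuallyEq h3
    have h5 := (h6 r hr).unique h4
    have h7 : r ^ (n - 1) ≠ 0 := pow_ne_zero _ hr.ne'
    rcases div_eq_zero_iff.1 h5 with h8 | h8
    · exact h8
    · exact absurd h8 h7
  constructor
  · intro r h1 h2
    unfold PE
    rw [hpe r h1 h2, mul_zero]
  have hb : 0 < b := by linarith
  have hae := (hint h hn2 hjn τ hτ hrot e he b hb).ae_hasDerivAt_integral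
  filter_upwards [hae] with u hu h1 h2
  have hu0 : 0 < u := by linarith
  have hmem : u ∈ uIcc 0 b := by
    rw [uIcc_of_le hb.le]
    exact ⟨hu0.le, h2.le⟩
  have h3 := hu hmem 0 (by rw [uIcc_of_le hb.le]; exact ⟨le_rfl, hb.le⟩)
  have h4 : (fun x => ∫ t in (0 : ℝ)..x, t ^ (n - 1) *
      (gj τ e j t - ((n : ℝ) - 1 - 2 * j) * gj τ e (j + 1) t)) =ᶠ[𝓝 u] fun _ => (0 : ℝ) := by
    filter_upwards [Ioo_mem_nhds h1 h2] with x hx
    exact hpe x hx.1 hx.2
  have h5 := h3.unique ((hasDerivAt_const u (0 : ℝ)).congr_of_eventuallyEq h4)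
  have h7 : u ^ (n - 1) ≠ 0 := pow_ne_zero _ hu0.ne'
  have h8 : gj τ e j u - ((n : ℝ) - 1 - 2 * j) * gj τ e (j + 1) u = 0 := by
    rcases mul_eq_zero.1 h5 with h9 | h9
    · exact absurd h9 h7
    · exact h9
  unfold VV
  rw [cc_succ, mul_assoc]
  have h9 : ((n : ℝ) - 1 - 2 * j) * gj τ e (j + 1) u = 1 / cc n j := by
    rw [← hg u h1 h2]; linarith
  rw [h9]
  field_simp
  ring

/-- the potentials vanish below the edge -/
theorem allzero (h : CHG) {n k : ℕ} (hn : n = 2 * k) (τ : Measure (En n))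
    (hτ : IsFiniteMeasure τ) (hrot : Rot τ) (e : En n) (he : ‖e‖ = 1) {a b : ℝ} (ha : 0 ≤ a)
    (hab : a < b) (h0 : ∀ r, a < r → r < b → VV τ e 0 r = 0) :
    ∀ j < k, ∀ r, a < r → r < b → VV τ e j r = 0 := by
  intro j
  induction j with
  | zero => intro _; exact h0
  | succ j ih =>
    intro hj
    have h1 := (step h hn (by omega) τ hτ hrot e he ha hab (ih (by omega))).2
    obtain ⟨_, _, _, _, _, h6⟩ := h n (j + 1) (by omega) (by omega) τ hτ hrot e he
    have hcont : ContinuousOn (VV τ e (j + 1)) (Ioo a b) := by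
      intro r hr
      have hr0 : 0 < r := by linarith [hr.1]
      have h7 := (((h6 r hr0).const_mul (cc n (j + 1))).sub_const 1).continuousAt
      exact h7.continuousWithinAt
    have h2 : VV τ e (j + 1) =ᵐ[volume.restrict (Ioo a b)] fun _ => (0 : ℝ) := by
      rw [Filter.EventuallyEq, ae_restrict_iff' measurableSet_Ioo]
      filter_upwards [h1] with u hu hmem
      exact hu hmem.1 hmem.2
    have h3 := MeasureTheory.Measure.eqOn_open_of_ae_eq h2 isOpen_Ioo hcont continuousOn_const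
    intro r hr1 hr2
    exact h3 ⟨hr1, hr2⟩

theorem inv_dist {n : ℕ} {e y : En n} (he : ‖e‖ = 1) {b r : ℝ} (hb : 0 < b) (hbr : b ≤ r)
    (hy : ‖y‖ ≤ b) : dist ((b ^ 2 / r) • e) y ≤ dist (r • e) y := by
  have hr : 0 < r := lt_of_lt_of_le hb hbr
  have hsq : dist ((b ^ 2 / r) • e) y ^ 2 ≤ dist (r • e) y ^ 2 := by
    rw [dist_eq_norm, dist_eq_norm, @norm_sub_sq_real, @norm_sub_sq_real, norm_smul, norm_smul,
      he, mul_one, mul_one, real_inner_smul_left, real_inner_smul_left, Real.norm_eq_abs,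
      Real.norm_eq_abs, abs_of_pos hr, abs_of_pos (by positivity)]
    have h1 := abs_real_inner_le_norm e y
    rw [he, one_mul] at h1
    have h2 := (abs_le.1 h1).2
    have h3 : inner ℝ e y ≤ b := h2.trans hy
    have h4 : r ^ 2 - 2 * (r * inner ℝ e y) + ‖y‖ ^ 2 -
        ((b ^ 2 / r) ^ 2 - 2 * (b ^ 2 / r * inner ℝ e y) + ‖y‖ ^ 2) =
        (r - b ^ 2 / r) * (r + b ^ 2 / r - 2 * inner ℝ e y) := by ring
    have h5 : 0 ≤ r - b ^ 2 / r := by
      rw [sub_nonneg, div_le_iff₀ hr]
      nlinarith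
    have h6 : 0 ≤ r + b ^ 2 / r - 2 * inner ℝ e y := by
      have h7 : 2 * b ≤ r + b ^ 2 / r := by
        have h8 : r + b ^ 2 / r - 2 * b = (r - b) ^ 2 / r := by
          field_simp
          ring
        have h9 : 0 ≤ (r - b) ^ 2 / r := by positivity
        linarith
      linarith
    have h7 := mul_nonneg h5 h6
    linarith
  exact (sq_le_sq₀ dist_nonneg dist_nonneg).1 hsq

theorem einv : CHG → GAPO → EINV := by
  intro h hg n k hk hn τ hτ hrot e he a b c ha hab hbc h0 hgap
  have hn2 : 2 ≤ n := by omega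
  have hb : 0 < b := by linarith
  have hz := allzero h hn τ hτ hrot e he ha hab h0
  constructor
  · intro j hj
    obtain ⟨_, _, _, _, h5, h6⟩ := h n j hn2 (by omega) τ hτ hrot e he
    constructor
    · have hc : ContinuousAt (VV τ e j) b :=
        (((h6 b hb).const_mul (cc n j)).sub_const 1).continuousAt
      have ht : Tendsto (VV τ e j) (𝓝[<] b) (𝓝 (VV τ e j b)) :=
        hc.tendsto.mono_left nhdsWithin_le_nhds
      have h7 : VV τ e j =ᶠ[𝓝[<] b] fun _ => (0 : ℝ) := by
        filter_upwards [Ioo_mem_nhdsLT hab] with x hx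
        exact hz j hj x hx.1 hx.2
      exact tendsto_nhds_unique (ht.congr' h7) tendsto_const_nhds
    · have hc : ContinuousAt (PE τ e j) b := by
        have h8 := (continuousOn_const (c := cc n j)).mul h5
        exact h8.continuousAt (Ioi_mem_nhds hb)
      have ht : Tendsto (PE τ e j) (𝓝[<] b) (𝓝 (PE τ e j b)) :=
        hc.tendsto.mono_left nhdsWithin_le_nhds
      have h7 : PE τ e j =ᶠ[𝓝[<] b] fun _ => (0 : ℝ) := by
        filter_upwards [Ioo_mem_nhdsLT hab] with x hx
        exact (step h hn hj τ hτ hrot e he ha hab (hz j hj)).1 x hx.1 hx.2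
      exact tendsto_nhds_unique (ht.congr' h7) tendsto_const_nhds
  -- the second part
  obtain ⟨j, rfl⟩ : ∃ j, k = j + 1 := ⟨k - 1, by omega⟩
  have hgood := (step h hn (Nat.lt_succ_self j) τ hτ hrot e he ha hab
    (hz j (Nat.lt_succ_self j))).2
  obtain ⟨hgi, d, hd, _⟩ := hg n hn2 τ hτ hrot e he b c hb.le hbc hgap (j + 1)
  obtain ⟨m, hm⟩ : ∃ m, m = (c - b) / 2 := ⟨_, rfl⟩
  have hm0 : 0 < m := by rw [hm]; linarith
  obtain ⟨C, hC0, hC⟩ := om_lip (j + 1) hm0
  have hcc := cc_pos hn (j + 1) le_rfl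
  -- the comparison at good points
  have hcomp : ∀ r, b < r → r < b + m → a < b ^ 2 / r →
      VV τ e (j + 1) (b ^ 2 / r) = 0 →
      VV τ e (j + 1) r ≤ cc n (j + 1) * (C * (r - b ^ 2 / r) * τ.real univ) := by
    intro r hr1 hr2 hr3 hr4
    have hr0 : 0 < r := by linarith
    have hs0 : 0 < b ^ 2 / r := by positivity
    have hsb : b ^ 2 / r < b := by
      rw [div_lt_iff₀ hr0]
      nlinarith
    have hrc : r < c := by rw [hm] at hr2; linarith
    have hint1 : Integrable (fun y => om (j + 1) (dist (r • e) y)) τ := hgi r ⟨hr1, hrc⟩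
    have hgj : gj τ e (j + 1) (b ^ 2 / r) = 1 / cc n (j + 1) := by
      unfold VV at hr4
      field_simp
      field_simp at hr4
      linarith
    have hint2 : Integrable (fun y => om (j + 1) (dist ((b ^ 2 / r) • e) y)) τ := by
      by_contra hcon
      have h1 : gj τ e (j + 1) (b ^ 2 / r) = 0 := by
        unfold gj
        exact integral_undef hcon
      rw [h1] at hgj
      have : (0 : ℝ) < 1 / cc n (j + 1) := by positivity
      linarith
    have hle : ∀ᵐ y ∂τ, om (j + 1) (dist (r • e) y) ≤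
        om (j + 1) (dist ((b ^ 2 / r) • e) y) + C * (r - b ^ 2 / r) := by
      have hae1 : ∀ᵐ y ∂τ, ¬ (b < ‖y‖ ∧ ‖y‖ < c) := by
        rw [ae_iff]
        simpa using hgap
      filter_upwards [hae1, Pool.Agent.Helper85.OB.ae_dist_pos hn2 hrot he hs0] with y hy hy2
      have hdiff : 0 ≤ C * (r - b ^ 2 / r) := mul_nonneg hC0 (by linarith)
      rcases le_or_gt ‖y‖ b with h1 | h1
      · have h2 := inv_dist he hb hr1.le h1
        have h3 := om_le (j + 1) hy2 h2
        linarith
      · have h2 : c ≤ ‖y‖ := by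
          by_contra hcon
          exact hy ⟨h1, not_le.1 hcon⟩
        have hnr : ‖r • e‖ = r := by
          rw [norm_smul, he, mul_one, Real.norm_eq_abs, abs_of_pos hr0]
        have hns : ‖(b ^ 2 / r) • e‖ = b ^ 2 / r := by
          rw [norm_smul, he, mul_one, Real.norm_eq_abs, abs_of_pos hs0]
        have h3 : m ≤ dist (r • e) y := by
          rw [dist_comm, dist_eq_norm]
          have := norm_sub_norm_le y (r • e)
          rw [hnr] at this
          rw [hm] at hr2 ⊢
          linarith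
        have h4 : m ≤ dist ((b ^ 2 / r) • e) y := by
          rw [dist_comm, dist_eq_norm]
          have := norm_sub_norm_le y ((b ^ 2 / r) • e)
          rw [hns] at this
          rw [hm]
          linarith
        have h5 := hC _ _ h4 h3
        have h6 : |dist ((b ^ 2 / r) • e) y - dist (r • e) y| ≤ r - b ^ 2 / r := by
          have h7 := abs_dist_sub_le ((b ^ 2 / r) • e) (r • e) y
          have h8 : dist ((b ^ 2 / r) • e) (r • e) = r - b ^ 2 / r := by
            rw [dist_comm, dist_eq_norm, ← sub_smul, norm_smul, he, mul_one, Real.norm_eq_abs,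
              abs_of_pos (by linarith)]
          rwa [h8] at h7
        have h9 := mul_le_mul_of_nonneg_left h6 hC0
        linarith
    have hmono := integral_mono_ae hint1 (hint2.add (integrable_const (C * (r - b ^ 2 / r))))
      hle
    have hsum : ∫ y, (om (j + 1) (dist ((b ^ 2 / r) • e) y) + C * (r - b ^ 2 / r)) ∂τ =
        gj τ e (j + 1) (b ^ 2 / r) + C * (r - b ^ 2 / r) * τ.real univ := by
      rw [integral_add hint2 (integrable_const _), integral_const, smul_eq_mul]
      unfold gj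
      ring
    have hfin : gj τ e (j + 1) r ≤ 1 / cc n (j + 1) + C * (r - b ^ 2 / r) * τ.real univ := by
      rw [← hgj, ← hsum]
      exact hmono
    unfold VV
    have h1 := mul_le_mul_of_nonneg_left hfin hcc.le
    have h2 : cc n (j + 1) * (1 / cc n (j + 1) + C * (r - b ^ 2 / r) * τ.real univ) =
        1 + cc n (j + 1) * (C * (r - b ^ 2 / r) * τ.real univ) := by
      field_simp
    linarith
  intro η hη
  obtain ⟨D, hD⟩ : ∃ D, D = cc n (j + 1) * (C * 2 * τ.real univ) := ⟨_, rfl⟩
  have hD0 : 0 ≤ D := by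
    rw [hD]
    have := measureReal_nonneg (μ := τ) (s := univ)
    positivity
  obtain ⟨δ, hδ⟩ : ∃ δ, δ = min (min m ((b - a) / 2)) (η / (D + 1)) := ⟨_, rfl⟩
  have hδ0 : 0 < δ := by
    rw [hδ]
    refine lt_min (lt_min hm0 (by linarith)) (by positivity)
  have hδ1 : δ ≤ m := by rw [hδ]; exact (min_le_left _ _).trans (min_le_left _ _)
  have hδ2 : δ ≤ (b - a) / 2 := by rw [hδ]; exact (min_le_left _ _).trans (min_le_right _ _)
  have hδ3 : δ ≤ η / (D + 1) := by rw [hδ]; exact min_le_right _ _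
  -- good points in the small interval
  have hsmall : ∀ r, b < r → r < b + δ → VV τ e (j + 1) (b ^ 2 / r) = 0 →
      VV τ e (j + 1) r ≤ η := by
    intro r hr1 hr2 hr3
    have hr0 : 0 < r := by linarith
    have h1 : r - b ^ 2 / r ≤ 2 * (r - b) := by
      have h2 : 2 * (r - b) - (r - b ^ 2 / r) = (r - b) ^ 2 / r := by
        field_simp
        ring
      have h3 : 0 ≤ (r - b) ^ 2 / r := by positivity
      linarith
    have h4 : a < b ^ 2 / r := by
      have : r - b ^ 2 / r < b - a := by linarith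
      linarith
    have h5 := hcomp r hr1 (by linarith) h4 hr3
    have h6 : cc n (j + 1) * (C * (r - b ^ 2 / r) * τ.real univ) ≤
        cc n (j + 1) * (C * (2 * (r - b)) * τ.real univ) := by
      have := measureReal_nonneg (μ := τ) (s := univ)
      gcongr
    have h7 : cc n (j + 1) * (C * (2 * (r - b)) * τ.real univ) = D * (r - b) := by
      rw [hD]; ring
    have h8 : D * (r - b) ≤ η := by
      have h9 : r - b ≤ η / (D + 1) := by linarith
      calc D * (r - b) ≤ (D + 1) * (η / (D + 1)) := by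
            apply mul_le_mul (by linarith) h9 (by linarith) (by linarith)
        _ = η := by field_simp
    linarith
  refine ⟨δ, hδ0, fun r hr1 hr2 => ?_⟩
  by_contra hcon
  rw [not_le] at hcon
  have hr0 : 0 < r := by linarith
  have hrc : r < c := by rw [hm] at hδ1; linarith
  have hcont : ContinuousAt (VV τ e (j + 1)) r := by
    have h1 := (hd r ⟨hr1, hrc⟩).1
    exact ((h1.const_mul (cc n (j + 1))).sub_const 1).continuousAt
  have hev : ∀ᶠ x in 𝓝 r, η < VV τ e (j + 1) x ∧ b < x ∧ x < b + δ :=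
    (hcont.eventually (lt_mem_nhds hcon)).and
      ((lt_mem_nhds hr1).and (gt_mem_nhds hr2))
  have hs : b ^ 2 / (b ^ 2 / r) = r := by field_simp
  have hs0 : 0 < b ^ 2 / r := by positivity
  have hinv : ContinuousAt (fun s : ℝ => b ^ 2 / s) (b ^ 2 / r) :=
    continuousAt_const.div continuousAt_id hs0.ne'
  have hev2 : ∀ᶠ s in 𝓝 (b ^ 2 / r), η < VV τ e (j + 1) (b ^ 2 / s) ∧ b < b ^ 2 / s ∧
      b ^ 2 / s < b + δ := by
    have h1 : Tendsto (fun s : ℝ => b ^ 2 / s) (𝓝 (b ^ 2 / r)) (𝓝 r) := by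
      have := hinv.tendsto
      rwa [hs] at this
    exact h1.eventually hev
  have hpos : ∀ᶠ s in 𝓝 (b ^ 2 / r), 0 < s := lt_mem_nhds hs0
  have hdense := MeasureTheory.Measure.dense_of_ae hgood
  obtain ⟨U, hU1, hU2, hU3⟩ := _root_.mem_nhds_iff.1 (hev2.and hpos)
  obtain ⟨s, hsU, hsg⟩ := hdense.inter_open_nonempty U hU2 ⟨_, hU3⟩
  obtain ⟨⟨hs1, hs2, hs3⟩, hs4⟩ := hU1 hsU
  have hss : b ^ 2 / (b ^ 2 / s) = s := by field_simp
  have hsb : s < b := by
    have h1 : b * s < b ^ 2 := by
      have := (lt_div_iff₀ hs4).1 hs2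
      exact this
    nlinarith
  have hsa : a < s := by
    have h1 : b ^ 2 < (b + δ) * s := (div_lt_iff₀ hs4).1 hs3
    have h2 : (b + δ) * (b - δ) ≤ b ^ 2 := by nlinarith
    have h3 : b - δ < s := by
      have h4 : (b + δ) * (b - δ) < (b + δ) * s := by linarith
      exact lt_of_mul_lt_mul_left h4 (by linarith)
    linarith
  have hfinal := hsmall (b ^ 2 / s) hs2 hs3 (by rw [hss]; exact hsg hsa hsb)
  linarith

end Pool.Agent.Helper59.OB
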