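import Pool.Agent.Helper73.OB.GoalsA
import Pool.Agent.Helper73.OB.GoalsB

/-!
# Project OB, packet REC: encoding a typed Markov system gives a Bernoulli label, and decoding gives the skeleton back.
-/

set_option autoImplicit false

open MeasureTheory ProbabilityTheory
open scoped ENNReal

namespace Pool.Agent.Helper59.OB

open Pool.Agent.Helper73.OB

theorem measurable_run {S X : Type} [MeasurableSpace X] {f : S → X → X} (hf : ∀ s, Measurable (f s))
    (w : List S) : Measurable (run f w) := by
  induction w with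
  | nil => exact measurable_id
  | cons a w ih => exact ih.comp (hf a)

theorem measurable_field {S X L : Type} [MeasurableSpace X] [MeasurableSpace L] {β : S → S}
    {f : S → X → X} (hf : ∀ s, Measurable (f s)) {l : X → L} (hl : Measurable l) :
    Measurable (field β f l) :=
  measurable_pi_lambda _ fun w => hl.comp (measurable_run hf w.1)

theorem measurable_shiftR {S L : Type} [MeasurableSpace L] {β : S → S} (s : S) :
    Measurable (shiftR (L := L) β s) :=
  measurable_pi_lambda _ fun w => measurable_pi_apply _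

/-- If two labels agree almost everywhere then so do their fields. -/
theorem field_ae {S X L : Type} [Finite S] [MeasurableSpace X] {β : S → S} {μ : Measure X}
    {f : S → X → X} (h : Sys β μ f) {l l' : X → L} (hl : ∀ᵐ x ∂μ, l x = l' x) :
    ∀ᵐ x ∂μ, field β f l x = field β f l' x := by
  have : Countable S := Finite.to_countable
  have h1 : ∀ᵐ x ∂μ, ∀ w : RW β, l (run f w.1 x) = l' (run f w.1 x) := by
    rw [ae_all_iff]
    intro w
    exact (h.run_mp w.1).quasiMeasurePreserving.ae hl
  filter_upwards [h1] with x hx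
  funext w
  exact hx w

/-- **Packet REC.** -/
theorem rec (hU2 : S_U2) (hCOD : S_COD) (hMOD : S_MODSYS) (hNAT : S_NAT) (hMEAS : S_MEAS)
    (hPRB : S_PRB) : S_REC := by
  intro S _ β p δ hFr e he X _ μ _ g hg s hs
  have : IsProbabilityMeasure (lawL e) := (hPRB.2 e).2.2.1
  obtain ⟨hY, hB⟩ := hMOD S β hFr.inv Lb (lawL e)
  obtain ⟨hTM, hED⟩ := hCOD S β p δ hFr e he (RW β → Lb) (iid β (lawL e)) (shiftR β) hY
    (fun ω => ω (rootW β)) hB
  -- the model
  obtain ⟨l0, hl0⟩ : ∃ l0 : (RW β → Lb) → Lb, l0 = fun ω => ω (rootW β) := ⟨_, rfl⟩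
  rw [← hl0] at hB hTM
  obtain ⟨s', hs'⟩ : ∃ s' : (RW β → Lb) → Sk, s' = dec p δ (shiftR β) l0 := ⟨_, rfl⟩
  rw [← hs'] at hTM
  obtain ⟨r, hr⟩ : ∃ r : (RW β → Sk) → Sk, r = fun η => η (rootW β) := ⟨_, rfl⟩
  have hED' : ∀ᵐ ω ∂(iid β (lawL e)), enc p δ (shiftR β) s' ω = l0 ω := by
    rw [hs', hl0]
    exact hED
  have hl0m : Measurable l0 := by rw [hl0]; exact measurable_pi_apply _
  have hrm : Measurable r := by rw [hr]; exact measurable_pi_apply _
  have hgm : ∀ a, Measurable (g a) := fun a => (hg.mp a).measurable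
  have hShm : ∀ a, Measurable (shiftR (L := Sk) β a) := fun a => measurable_shiftR a
  have hFm : ∀ a, Measurable (shiftR (L := Lb) β a) := fun a => measurable_shiftR a
  have hU : μ.map (field β g s) = (iid β (lawL e)).map (field β (shiftR β) s') :=
    hU2 S β p δ hFr e X (RW β → Lb) μ (iid β (lawL e)) g (shiftR β) hg hY s s' hs hTM
  have hp : ∀ a x, field β g s (g a x) = shiftR β a (field β g s x) := fun a x =>
    field_shift hg.inv s a x
  have hp' : ∀ a ω, field β (shiftR β) s' (shiftR β a ω) = shiftR β a (field β (shiftR β) s' ω) :=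
    fun a ω => field_shift hY.inv s' a ω
  have hpm : Measurable (field β g s) := measurable_field hgm hs.meas
  have hpm' : Measurable (field β (shiftR β) s') := measurable_field hFm hTM.meas
  -- the encodings
  have hE : ∀ x, enc p δ g s x = enc p δ (shiftR β) r (field β g s x) := fun x => by
    have h := ((hNAT S X (RW β → Sk) p δ g (shiftR β) (field β g s) hp).2.2.1) r x
    rw [← h, hr]
    rfl
  have hE' : ∀ ω, enc p δ (shiftR β) s' ω = enc p δ (shiftR β) r (field β (shiftR β) s' ω) := fun ω => by
    have h := ((hNAT S (RW β → Lb) (RW β → Sk) p δ (shiftR β) (shiftR β) (field β (shiftR β) s') hp').2.2.1)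
      r ω
    rw [← h, hr]
    rfl
  have hEm : Measurable (enc p δ (shiftR β) r) :=
    (hMEAS S (RW β → Sk) p δ (shiftR β) hShm).2.2.1 r hrm
  have hΦm : Measurable (field β (shiftR β) (enc p δ (shiftR β) r)) := measurable_field hShm hEm
  have hF : ∀ x, field β g (enc p δ g s) x =
      field β (shiftR β) (enc p δ (shiftR β) r) (field β g s x) := fun x => by
    funext w
    simp only [field]
    rw [hE, run_equivariant hp]
  have hF' : ∀ ω, field β (shiftR β) (enc p δ (shiftR β) s') ω =
      field β (shiftR β) (enc p δ (shiftR β) r) (field β (shiftR β) s' ω) := fun ω => by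
    funext w
    simp only [field]
    rw [hE', run_equivariant hp']
  have hID : ∀ᵐ ω ∂(iid β (lawL e)), field β (shiftR β) (enc p δ (shiftR β) s') ω = ω := by
    filter_upwards [field_ae hY hED'] with ω hω
    rw [hω, hl0]
    exact field_model ω
  refine ⟨⟨(hMEAS S X p δ g hgm).2.2.1 s hs.meas, ?_, ?_⟩, ?_⟩
  · exact measurable_field hgm ((hMEAS S X p δ g hgm).2.2.1 s hs.meas)
  · have h1 : field β g (enc p δ g s) =
        field β (shiftR β) (enc p δ (shiftR β) r) ∘ field β g s := funext hF
    rw [h1, ← Measure.map_map hΦm hpm, hU, Measure.map_map hΦm hpm']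
    have h2 : (field β (shiftR β) (enc p δ (shiftR β) r) ∘ field β (shiftR β) s') =ᵐ[iid β (lawL e)] id := by
      filter_upwards [hID] with ω hω
      rw [Function.comp_apply, ← hF', hω]
      rfl
    rw [Measure.map_congr h2, Measure.map_id]
  · -- decoding
    have hdm : Measurable (dec p δ (shiftR β) (enc p δ (shiftR β) r)) :=
      (hMEAS S (RW β → Sk) p δ (shiftR β) hShm).2.2.2 _ hEm
    have hA : MeasurableSet {η : RW β → Sk | dec p δ (shiftR β) (enc p δ (shiftR β) r) η = r η} :=
      measurableSet_eq_fun hdm hrm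
    have hD : ∀ x, dec p δ g (enc p δ g s) x =
        dec p δ (shiftR β) (enc p δ (shiftR β) r) (field β g s x) := fun x => by
      have h := ((hNAT S X (RW β → Sk) p δ g (shiftR β) (field β g s) hp).2.2.2)
        (enc p δ (shiftR β) r) x
      rw [← h]
      congr 1
      exact funext hE
    have hD' : ∀ ω, dec p δ (shiftR β) (enc p δ (shiftR β) s') ω =
        dec p δ (shiftR β) (enc p δ (shiftR β) r) (field β (shiftR β) s' ω) := fun ω => by
      have h := ((hNAT S (RW β → Lb) (RW β → Sk) p δ (shiftR β) (shiftR β) (field β (shiftR β) s')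
        hp').2.2.2) (enc p δ (shiftR β) r) ω
      rw [← h]
      congr 1
      exact funext hE'
    have hM : ∀ᵐ ω ∂(iid β (lawL e)), dec p δ (shiftR β) (enc p δ (shiftR β) s') ω = s' ω := by
      filter_upwards [hID] with ω hω
      have h := ((hNAT S (RW β → Lb) (RW β → Lb) p δ (shiftR β) (shiftR β)
        (field β (shiftR β) (enc p δ (shiftR β) s'))
        (fun a ω => field_shift hY.inv (enc p δ (shiftR β) s') a ω)).2.2.2) l0 ω
      have h3 : (fun y => l0 (field β (shiftR β) (enc p δ (shiftR β) s') y)) =
          enc p δ (shiftR β) s' := by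
        funext y
        rw [hl0]
        rfl
      rw [h3, hω] at h
      rw [h, hs']
    have hA' : ∀ᵐ η ∂((iid β (lawL e)).map (field β (shiftR β) s')),
        dec p δ (shiftR β) (enc p δ (shiftR β) r) η = r η := by
      rw [ae_map_iff hpm'.aemeasurable hA]
      filter_upwards [hM] with ω hω
      rw [← hD', hω, hr]
      rfl
    rw [← hU, ae_map_iff hpm.aemeasurable hA] at hA'
    filter_upwards [hA'] with x hx
    rw [hD, hx, hr]
    rfl

end Pool.Agent.Helper59.OB
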